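import Pool.Agent.Helper5.FRD.Goals

/-!
# Packet FRD-ENDH (MP_79b960_co)
-/

set_option autoImplicit false

namespace Pool.Agent.Helper39.FRD.ENDH

open Finset
open Pool.Agent.Helper5.FRC Pool.Agent.Helper5.FRD
open Pool.Agent.Helper55.FR
open Pool.Agent.Helper5

theorem even_of_inv {V : Type} [DecidableEq V] (D : Finset V) (r : V → V)
    (h1 : ∀ x ∈ D, r x ∈ D) (h2 : ∀ x ∈ D, r (r x) = x) (h3 : ∀ x ∈ D, r x ≠ x) :
    Even D.card := by
  have h : ∑ _x ∈ D, (1 : ZMod 2) = 0 :=
    Finset.sum_involution (fun a _ => r a) (fun a _ => by decide) (fun a ha _ => h3 a ha)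
      (fun a ha => h1 a ha) (fun a ha => h2 a ha)
  rw [Finset.sum_const, nsmul_eq_mul, mul_one] at h
  exact (ZMod.natCast_eq_zero_iff_even).1 h

theorem t : EndhStmt := by
  intro V _ _ G _ hG M hM n m hc hadj hMm hsol
  classical
  obtain ⟨P, Y, -, hP, hY, hfix, hsolH⟩ := hsol
  have hPP : ∀ v, P (P v) = v := fun v => (hP v (mem_univ v)).2.1
  have hP3 : ∀ v, P v = v ∨ P v = n v ∨ n (P v) = v := fun v => (hP v (mem_univ v)).2.2
  have hf1 : ∀ v, P v = v → v ∈ Y := fun v h => (hfix v (mem_univ v) h).1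
  have hf2 : ∀ v, P v = v → P (n v) ≠ n v := fun v h => (hfix v (mem_univ v) h).2
  -- the matching `M₂`
  let q : V → V := fun v => if v ∈ Y then m v else P v
  have hq1 : ∀ v, v ∈ Y → q v = m v := fun v h => if_pos h
  have hq2 : ∀ v, v ∉ Y → q v = P v := fun v h => if_neg h
  have hqq : ∀ v, q (q v) = v := by
    intro v
    by_cases hv : v ∈ Y
    · rw [hq1 v hv, hq1 _ (hY v hv).1, hc.mm]
    · have h1 : P v ∉ Y := fun h => hv (by have h2 := (hY _ h).2; rwa [hPP] at h2)
      rw [hq2 v hv, hq2 _ h1, hPP]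
  have hqadj : ∀ v, G.Adj v (q v) := by
    intro v
    rw [hadj]
    by_cases hv : v ∈ Y
    · rw [hq1 v hv]
      exact Or.inr (Or.inr rfl)
    · rw [hq2 v hv]
      rcases hP3 v with h | h | h
      · exact absurd (hf1 v h) hv
      · exact Or.inl h
      · exact Or.inr (Or.inl h.symm)
  let M₂ : G.Subgraph :=
    { verts := Set.univ
      Adj := fun x y => y = q x
      adj_sub := by
        rintro x y rfl
        exact hqadj x
      edge_vert := fun _ => Set.mem_univ _
      symm := ⟨by
        rintro x y rfl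
        exact (hqq x).symm⟩ }
  have hM2 : ∀ x y, M₂.Adj x y ↔ y = q x := fun x y => Iff.rfl
  have hM₂ : M₂.IsPerfectMatching := by
    rw [SimpleGraph.Subgraph.isPerfectMatching_iff]
    intro v
    exact ⟨q v, rfl, fun y hy => hy⟩
  -- a set with all leaving edges in `M` is closed under `n` and its inverse
  have hinv : ∀ K : Finset V, (∀ x ∈ K, ∀ y ∉ K, G.Adj x y → M.Adj x y) → Inv n K := by
    intro K h1 x hx
    by_contra hnx
    have h4 := h1 x hx _ hnx ((hadj _ _).2 (Or.inl rfl))
    rw [hMm] at h4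
    exact hc.nm x h4
  have hinv' : ∀ K : Finset V, (∀ x ∈ K, ∀ y ∉ K, G.Adj x y → M.Adj x y) →
      ∀ x, n x ∈ K → x ∈ K := by
    intro K h1 x hx
    by_contra hnx
    have h4 := h1 _ hx _ hnx ((hadj _ _).2 (Or.inr (Or.inl rfl)))
    rw [hMm] at h4
    have h5 := congrArg m h4
    rw [hc.mm] at h5
    exact hc.nm x h5.symm
  -- leaving edges outside `M₂`
  have hout : ∀ K : Finset V, dm m (K \ Y) ≤ FRB.cutN G (fun x y => ¬ M₂.Adj x y) K := by
    intro K
    unfold dm FRB.cutN
    rw [Finset.card_eq_sum_ones]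
    have hs : ((K \ Y).filter fun x => m x ∉ K \ Y) ⊆ K := by
      intro x hx
      exact (Finset.mem_sdiff.1 (Finset.mem_filter.1 hx).1).1
    refine (Finset.sum_le_sum ?_).trans (Finset.sum_le_sum_of_subset hs)
    intro x hx
    rw [Finset.mem_filter, Finset.mem_sdiff] at hx
    obtain ⟨⟨hxK, hxY⟩, hmx⟩ := hx
    have hmY : m x ∉ Y := fun h => hxY (by have := (hY _ h).1; rwa [hc.mm] at this)
    have hmK : m x ∉ K := fun h => hmx (Finset.mem_sdiff.2 ⟨h, hmY⟩)
    have h1 : G.Adj x (m x) := (hadj _ _).2 (Or.inr (Or.inr rfl))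
    have h2 : ¬ M₂.Adj x (m x) := by
      intro h5
      rw [hM2, hq2 x hxY] at h5
      rcases hP3 x with h | h | h
      · exact hxY (hf1 x h)
      · rw [h] at h5
        exact hc.nm x h5.symm
      · rw [← h5] at h
        exact hc.nm (m x) (h.trans (hc.mm x).symm)
    have h3 := Finset.single_le_sum
      (f := fun y => if G.Adj x y ∧ ¬ M₂.Adj x y then 1 else 0) (s := Kᶜ)
      (fun _ _ => Nat.zero_le _) (Finset.mem_compl.2 hmK)
    simp only [h1, h2, not_false_eq_true, and_self, if_true] at h3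
    convert h3
  -- the involution `r`
  let r : V → V := fun v => if P v = v then n v else if P v = n v then n.symm v
    else if P (n v) = n v then v else n v
  have hr1 : ∀ v, P v = v → r v = n v := fun v h => if_pos h
  have hr2 : ∀ v, P v = n v → r v = n.symm v := by
    intro v h
    have h1 : P v ≠ v := by rw [h]; exact hc.nv v
    show (if P v = v then n v else _) = _
    rw [if_neg h1, if_pos h]
  have hr3 : ∀ v, n (P v) = v → P (n v) = n v → r v = v := by
    intro v h h'
    have h1 : P v ≠ v := by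
      intro h2
      rw [h2] at h
      exact hc.nv v h
    have h2 : P v ≠ n v := by
      intro h3
      rw [h3] at h
      exact hc.nn v h
    show (if P v = v then n v else _) = _
    rw [if_neg h1, if_neg h2, if_pos h']
  have hr4 : ∀ v, n (P v) = v → P (n v) ≠ n v → r v = n v := by
    intro v h h'
    have h1 : P v ≠ v := by
      intro h2
      rw [h2] at h
      exact hc.nv v h
    have h2 : P v ≠ n v := by
      intro h3
      rw [h3] at h
      exact hc.nn v h
    show (if P v = v then n v else _) = _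
    rw [if_neg h1, if_neg h2, if_neg h']
  have hsy : ∀ v, n (n.symm v) = v := fun v => n.apply_symm_apply v
  have hsy' : ∀ v, n.symm (n v) = v := fun v => n.symm_apply_apply v
  have hrr : ∀ v, r (r v) = v := by
    intro v
    rcases hP3 v with h | h | h
    · rw [hr1 v h]
      rcases hP3 (n v) with h1 | h1 | h1
      · exact absurd h1 (hf2 v h)
      · rw [hr2 _ h1, hsy']
      · exfalso
        have h2 : P (n v) = v := n.injective h1
        have h3 := hPP (n v)
        rw [h2, h] at h3
        exact hc.nv v h3.symm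
    · rw [hr2 v h]
      rcases hP3 (n.symm v) with h1 | h1 | h1
      · rw [hr1 _ h1, hsy]
      · exfalso
        rw [hsy] at h1
        have h2 := hPP (n.symm v)
        rw [h1, h] at h2
        have h3 : n (n v) = v := by rw [h2, hsy]
        exact hc.nn v h3
      · have h4 : P (n (n.symm v)) ≠ n (n.symm v) := by
          rw [hsy, h]
          exact hc.nv v
        rw [hr4 _ h1 h4, hsy]
    · by_cases h' : P (n v) = n v
      · rw [hr3 v h h', hr3 v h h']
      · rw [hr4 v h h']
        rcases hP3 (n v) with h1 | h1 | h1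
        · exact absurd h1 h'
        · rw [hr2 _ h1, hsy']
        · exfalso
          have h2 : P (n v) = v := n.injective h1
          have h3 := hPP (n v)
          rw [h2] at h3
          rw [h3] at h
          exact hc.nn v h
  have hrn : ∀ v, r v = v → P (n v) = n v := by
    intro v hv
    rcases hP3 v with h | h | h
    · rw [hr1 v h] at hv
      exact absurd hv (hc.nv v)
    · rw [hr2 v h] at hv
      have h2 := congrArg n hv
      rw [hsy] at h2
      exact absurd h2.symm (hc.nv v)
    · by_contra h'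
      rw [hr4 v h h'] at hv
      exact hc.nv v hv
  set H := G.deleteEdges (M.edgeSet ∪ M₂.edgeSet) with hH
  have hHadj : ∀ x y, H.Adj x y ↔ G.Adj x y ∧ ¬ M.Adj x y ∧ ¬ M₂.Adj x y := by
    intro x y
    rw [hH, SimpleGraph.deleteEdges_adj]
    constructor
    · rintro ⟨ha, hb⟩
      exact ⟨ha, fun h => hb (Or.inl h), fun h => hb (Or.inr h)⟩
    · rintro ⟨ha, hb, hc⟩
      refine ⟨ha, fun h => ?_⟩
      rcases h with h | h
      · exact hb h
      · exact hc h
  have hnotM : ∀ v w, (w = n v ∨ n w = v) → w ≠ m v := by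
    rintro v w (h | h) hw
    · exact hc.nm v (h.symm.trans hw)
    · rw [hw] at h
      exact hc.nm (m v) (h.trans (hc.mm v).symm)
  have hrH : ∀ v, r v ≠ v → H.Adj v (r v) := by
    intro v hv
    have h1 : r v = n v ∨ n (r v) = v := by
      rcases hP3 v with h | h | h
      · exact Or.inl (hr1 v h)
      · right
        rw [hr2 v h, hsy]
      · by_cases h' : P (n v) = n v
        · exact absurd (hr3 v h h') hv
        · exact Or.inl (hr4 v h h')
    have h2 : r v ≠ P v := by
      intro h2
      rcases hP3 v with h | h | h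
      · rw [h] at h2
        exact hv h2
      · rw [hr2 v h, h] at h2
        have h3 := congrArg n h2
        rw [hsy] at h3
        exact hc.nn v h3.symm
      · by_cases h' : P (n v) = n v
        · exact hv (hr3 v h h')
        · rw [hr4 v h h'] at h2
          rw [← h2] at h
          exact hc.nn v h
    rw [hHadj, hadj, hMm, hM2]
    refine ⟨?_, hnotM v _ h1, ?_⟩
    · rcases h1 with h | h
      · exact Or.inl h
      · exact Or.inr (Or.inl h.symm)
    · by_cases hvY : v ∈ Y
      · rw [hq1 v hvY]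
        exact hnotM v _ h1
      · rw [hq2 v hvY]
        exact h2
  by_contra hno
  have hno' : ¬ ∃ M₃ : G.Subgraph, M₃.IsPerfectMatching ∧
      ∀ e, ¬ (e ∈ M.edgeSet ∧ e ∈ M₂.edgeSet ∧ e ∈ M₃.edgeSet) := by
    rintro ⟨M₃, h1, h2⟩
    exact hno ⟨M₂, M₃, hM₂, h1, h2⟩
  obtain ⟨Q, hQ1, hQ2, hQ3⟩ := FRB.certificate G hG M M₂ hM hM₂ hno'
  rw [← hH] at hQ3
  -- the members of `Q` are closed in `H`
  have hcl : ∀ K ∈ Q, ∀ x ∈ K, ∀ y, H.Adj x y → y ∈ K := by
    intro K hK x hx y hxy
    by_contra hy
    rw [hHadj] at hxy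
    rcases (hQ1 K hK).2 with h | h
    · exact hxy.2.1 (h x hx y hy hxy.1)
    · exact hxy.2.2 (h x hx y hy hxy.1)
  have hg : ∀ K ∈ Q, 1 ≤ {C : H.ConnectedComponent |
      Odd C.supp.ncard ∧ C.supp ⊆ (K : Set V)}.ncard := by
    intro K hK
    obtain ⟨C, hC⟩ := FRB.exists_odd_component H K (hQ1 K hK).1 (hcl K hK)
    rw [Nat.one_le_iff_ne_zero, ← Nat.pos_iff_ne_zero, Set.ncard_pos (Set.toFinite _)]
    exact ⟨C, hC⟩
  set Q₁ := Q.filter fun K => ∀ x ∈ K, ∀ y ∉ K, G.Adj x y → M.Adj x y with hQ₁
  have hm₁ : ∀ K, K ∈ Q₁ ↔ K ∈ Q ∧ ∀ x ∈ K, ∀ y ∉ K, G.Adj x y → M.Adj x y := by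
    intro K; rw [hQ₁, Finset.mem_filter]
  have hQ₁s : Q₁ ⊆ Q := fun K hK => ((hm₁ K).1 hK).1
  have hcard : 2 ≤ Q₁.card := by
    have h1 := (hQ3 M (Or.inl rfl)).1
    have h2 : ∑ K ∈ Q \ Q₁, 2 ≤ ∑ K ∈ Q, FRB.cutN G (fun x y => ¬ M.Adj x y) K := by
      refine (Finset.sum_le_sum ?_).trans (Finset.sum_le_sum_of_subset Finset.sdiff_subset)
      intro K hK
      rw [Finset.mem_sdiff, hm₁] at hK
      exact FRB.two_le_cut hG hM (fun h => hK.2 ⟨hK.1, h⟩)
    rw [Finset.sum_const, smul_eq_mul] at h2
    have h3 := Finset.card_sdiff_add_card_eq_card hQ₁s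
    omega
  obtain ⟨K, hK, K', hK', hKK⟩ := Finset.one_lt_card.1 hcard
  have hd : Disjoint K K' := hQ2 K (hQ₁s hK) K' (hQ₁s hK') hKK
  have hMK := ((hm₁ K).1 hK).2
  have hMK' := ((hm₁ K').1 hK').2
  have h2 := (hQ3 M₂ (Or.inr rfl)).2
  set o : Finset V → ℕ := fun K => FRB.cutN G (fun x y => ¬ M₂.Adj x y) K with ho
  set g : Finset V → ℕ := fun K => {C : H.ConnectedComponent |
    Odd C.supp.ncard ∧ C.supp ⊆ (K : Set V)}.ncard with hgd
  have h3 : o K + g K + (o K' + g K') + (Q.card - 2) ≤ ∑ K ∈ Q, (o K + g K) := by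
    have hsub : ({K, K'} : Finset (Finset V)) ⊆ Q := by
      intro L hL
      rw [Finset.mem_insert, Finset.mem_singleton] at hL
      rcases hL with rfl | rfl
      · exact hQ₁s hK
      · exact hQ₁s hK'
    rw [← Finset.sum_sdiff hsub, Finset.sum_pair hKK, add_comm]
    have h4 : (Q \ {K, K'}).card = Q.card - 2 := by
      rw [Finset.card_sdiff_of_subset hsub, Finset.card_pair hKK]
    have h5 : ∑ L ∈ Q \ {K, K'}, 1 ≤ ∑ L ∈ Q \ {K, K'}, (o L + g L) := by
      apply Finset.sum_le_sum
      intro L hL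
      have := hg L (Finset.sdiff_subset hL)
      exact this.trans (Nat.le_add_left _ _)
    rw [Finset.sum_const, smul_eq_mul, mul_one, h4] at h5
    exact Nat.add_le_add_right h5 _
  -- odd components outside `K ∪ K'`
  have hdich : ∀ L ∈ Q, ∀ C : H.ConnectedComponent, C.supp ⊆ (L : Set V) ∨
      ∀ x ∈ C.supp, x ∉ L := by
    intro L hL C
    by_cases h : ∀ x ∈ C.supp, x ∉ L
    · exact Or.inr h
    · left
      push Not at h
      obtain ⟨x, hxC, hxL⟩ := h
      intro y hy
      rw [SimpleGraph.ConnectedComponent.mem_supp_iff] at hy hxC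
      have hr : H.Reachable x y := by
        rw [← SimpleGraph.ConnectedComponent.eq, hxC, hy]
      obtain ⟨p⟩ := hr
      have key : ∀ (u v : V), H.Walk u v → u ∈ L → v ∈ L := by
        intro u v p
        induction p with
        | nil => exact fun h => h
        | cons h _ ih => exact fun hu => ih (hcl L hL _ hu _ h)
      exact key x y p hxL
  have hrest : {C : H.ConnectedComponent | Odd C.supp.ncard}.ncard ≤
      g K + g K' + (univ.filter fun v => P v = v ∧ v ∉ K ∧ v ∉ K').card := by
    have h1 : {C : H.ConnectedComponent | Odd C.supp.ncard} ⊆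
        ({C : H.ConnectedComponent | Odd C.supp.ncard ∧ C.supp ⊆ (K : Set V)} ∪
          {C : H.ConnectedComponent | Odd C.supp.ncard ∧ C.supp ⊆ (K' : Set V)}) ∪
        (((univ.filter fun v => r v = v ∧ v ∉ K ∧ v ∉ K').image H.connectedComponentMk :
          Finset H.ConnectedComponent) : Set H.ConnectedComponent) := by
      intro C hC
      have hCo : Odd C.supp.ncard := hC
      rcases hdich K (hQ₁s hK) C with h | hKd
      · exact Or.inl (Or.inl ⟨hCo, h⟩)
      rcases hdich K' (hQ₁s hK') C with h | hKd'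
      · exact Or.inl (Or.inr ⟨hCo, h⟩)
      right
      rw [Set.mem_ofPred_eq, Set.ncard_eq_toFinset_card'] at hC
      rw [Finset.mem_coe, Finset.mem_image]
      by_contra hcon
      push Not at hcon
      rw [← Nat.not_even_iff_odd] at hC
      apply hC
      refine even_of_inv _ r ?_ ?_ ?_
      · intro x hx
        rw [Set.mem_toFinset, SimpleGraph.ConnectedComponent.mem_supp_iff] at hx ⊢
        by_cases hrx : r x = x
        · rw [hrx]; exact hx
        · rw [← hx]
          exact (SimpleGraph.ConnectedComponent.sound (hrH x hrx).reachable).symm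
      · intro x _
        exact hrr x
      · intro x hx hrx
        rw [Set.mem_toFinset] at hx
        refine hcon x (Finset.mem_filter.2 ⟨mem_univ x, hrx, hKd x hx, hKd' x hx⟩) ?_
        rwa [SimpleGraph.ConnectedComponent.mem_supp_iff] at hx
    have h4 : (univ.filter fun v => r v = v ∧ v ∉ K ∧ v ∉ K').card ≤
        (univ.filter fun v => P v = v ∧ v ∉ K ∧ v ∉ K').card := by
      refine Finset.card_le_card_of_injOn n ?_ n.injective.injOn
      intro v hv
      rw [Finset.mem_coe, Finset.mem_filter] at hv ⊢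
      exact ⟨mem_univ _, hrn v hv.2.1, fun h => hv.2.2.1 (hinv' K hMK v h),
        fun h => hv.2.2.2 (hinv' K' hMK' v h)⟩
    have h5 := Set.ncard_le_ncard h1 (Set.toFinite _)
    have h6 := Set.ncard_union_le
      ({C : H.ConnectedComponent | Odd C.supp.ncard ∧ C.supp ⊆ (K : Set V)} ∪
          {C : H.ConnectedComponent | Odd C.supp.ncard ∧ C.supp ⊆ (K' : Set V)})
      (((univ.filter fun v => r v = v ∧ v ∉ K ∧ v ∉ K').image H.connectedComponentMk :
          Finset H.ConnectedComponent) : Set H.ConnectedComponent)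
    have h7 := Set.ncard_union_le
      {C : H.ConnectedComponent | Odd C.supp.ncard ∧ C.supp ⊆ (K : Set V)}
      {C : H.ConnectedComponent | Odd C.supp.ncard ∧ C.supp ⊆ (K' : Set V)}
    have h8 : ((((univ.filter fun v => r v = v ∧ v ∉ K ∧ v ∉ K').image H.connectedComponentMk :
          Finset H.ConnectedComponent) : Set H.ConnectedComponent)).ncard ≤
          (univ.filter fun v => r v = v ∧ v ∉ K ∧ v ∉ K').card := by
      rw [Set.ncard_coe_finset]
      exact Finset.card_image_le
    change _ ≤ g K + g K' + _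
    have h9 : g K = {C : H.ConnectedComponent | Odd C.supp.ncard ∧ C.supp ⊆ (K : Set V)}.ncard :=
      rfl
    have h10 : g K' =
      {C : H.ConnectedComponent | Odd C.supp.ncard ∧ C.supp ⊆ (K' : Set V)}.ncard := rfl
    omega
  have hfx : (univ.filter fun v => P v = v ∧ v ∉ K ∧ v ∉ K').card + fx P K + fx P K' =
      fx P univ := by
    unfold fx
    have e1 : (univ.filter fun v => P v = v) =
        ((univ.filter fun v => P v = v ∧ v ∉ K ∧ v ∉ K') ∪ (K.filter fun v => P v = v)) ∪
          (K'.filter fun v => P v = v) := by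
      ext v
      simp only [Finset.mem_filter, Finset.mem_union, mem_univ, true_and]
      tauto
    rw [e1, Finset.card_union_of_disjoint, Finset.card_union_of_disjoint]
    · rw [Finset.disjoint_left]
      intro v hv hv'
      exact (Finset.mem_filter.1 hv).2.2.1 (Finset.mem_filter.1 hv').1
    · rw [Finset.disjoint_left]
      intro v hv hv'
      rcases Finset.mem_union.1 hv with h | h
      · exact (Finset.mem_filter.1 h).2.2.2 (Finset.mem_filter.1 hv').1
      · exact Finset.disjoint_left.1 hd (Finset.mem_filter.1 h).1 (Finset.mem_filter.1 hv').1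
  have hfin := hsolH K (subset_univ K) K' (subset_univ K') (hinv K hMK) (hinv K' hMK')
    (hQ1 K (hQ₁s hK)).1 (hQ1 K' (hQ₁s hK')).1 hd
  have ho1 : dm m (K \ Y) ≤ o K := hout K
  have ho2 : dm m (K' \ Y) ≤ o K' := hout K'
  have hQc : 2 ≤ Q.card := hcard.trans (Finset.card_le_card hQ₁s)
  have h2' : 2 + ∑ K ∈ Q, (o K + g K) ≤
      {C : H.ConnectedComponent | Odd C.supp.ncard}.ncard + Q.card := h2
  omega

end Pool.Agent.Helper39.FRD.ENDH
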